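import Mathlib
import Pool.Agent.H13.DM.Final

/-!
A lattice in SU(2,1) with a finitely generated infinite normal subgroup whose quotient is not
a-T-menable: a negative answer to Q2.
-/

set_option autoImplicit false

namespace Pool.Agent.Results.MP_9d29f5_al.NotHaagerup

open Pool.Agent.H13.DM

universe v

/-- There are a lattice Γ in SU(2,1) and a finitely generated infinite normal subgroup N of Γ
such that the quotient group Γ / N is not a-T-menable. -/
theorem result : ∃ Γ : Subgroup SU21, IsLattice Γ ∧
    ∃ (N : Subgroup Γ) (_ : N.Normal), N.FG ∧ Infinite N ∧ ¬ ATMenable.{0, v} (Γ ⧸ N) :=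
  dm_final

end Pool.Agent.Results.MP_9d29f5_al.NotHaagerup
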